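import Pool.Agent.Helper23.EB.Spc
import Pool.Agent.Helper26.FV.DF

/-!
MP_ba6bfd_gt, block IN1 (helper24): in the model, the one-point compactification of the ladder
space is compact Hausdorff.
-/

namespace Pool.Agent.Helper23.EB

open Pool.Agent.Helper96.Fc

open ZFSet (pair)

open Pool.Agent.Helper89.FV (Dfb Dfb.sep Dfb.mem Dfb.neg Dfb.and Dfb.exB Dfb.pair Dfb.pair_mem sep2
  sep4 exists_union singleton_mem pair_mem_iff cns)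

namespace In1

theorem nat_ne {m n : ℕ} (h : m ≠ n) : nat m ≠ nat n := by
  intro h'
  apply h
  unfold nat at h'
  exact_mod_cast Ordinal.toZFSet_injective h'

theorem iso_inj {ξ ξ' : ZFSet.{0}} (h : iso ξ = iso ξ') : ξ = ξ' := (ZFSet.pair_inj.1 h).2

theorem lmt_inj {ξ ξ' : ZFSet.{0}} (h : lmt ξ = lmt ξ') : ξ = ξ' := (ZFSet.pair_inj.1 h).2

theorem iso_ne_lmt (ξ δ : ZFSet.{0}) : iso ξ ≠ lmt δ :=
  fun h => nat_ne zero_ne_one (ZFSet.pair_inj.1 h).1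

theorem iso_ne_ifty (ξ : ZFSet.{0}) : iso ξ ≠ ifty :=
  fun h => nat_ne (by norm_num : (0 : ℕ) ≠ 2) (ZFSet.pair_inj.1 h).1

theorem lmt_ne_ifty (ξ : ZFSet.{0}) : lmt ξ ≠ ifty :=
  fun h => nat_ne (by norm_num : (1 : ℕ) ≠ 2) (ZFSet.pair_inj.1 h).1

theorem nat_mem {N : Set ZFSet.{0}} (hN : IsZFC N) (n : ℕ) : nat n ∈ N :=
  Pool.Agent.Helper89.FV.nat_mem hN n

variable {N : Set ZFSet.{0}} {κ E L T : ZFSet.{0}} {X : Sp}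

theorem diff_mem (hN : IsZFC N) {a b : ZFSet.{0}} (ha : a ∈ N) (hb : b ∈ N) :
    ∃ c ∈ N, ∀ z, z ∈ c ↔ z ∈ a ∧ z ∉ b :=
  sep2 hN (R := fun x p _ => ¬ x ∈ p) (.neg (.mem 0 1)) ha hb hb

theorem inter_mem (hN : IsZFC N) {a b : ZFSet.{0}} (ha : a ∈ N) (hb : b ∈ N) : a ∩ b ∈ N := by
  obtain ⟨c, hc, h⟩ := sep2 hN (R := fun x p _ => x ∈ p) (.mem 0 1) ha hb hb
  have : c = a ∩ b := by
    ext z
    rw [h, ZFSet.mem_inter]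
  rwa [← this]

theorem sUnion_mem (hN : IsZFC N) {s : ZFSet.{0}} (hs : s ∈ N) : ZFSet.sUnion s ∈ N := by
  obtain ⟨u, hu, h⟩ := hN.union s hs
  have : u = ZFSet.sUnion s := by
    ext z
    rw [ZFSet.mem_sUnion]
    constructor
    · intro hz
      obtain ⟨y, -, hy, hzy⟩ := (h z (hN.trans u hu z hz)).1 hz
      exact ⟨y, hy, hzy⟩
    · rintro ⟨y, hy, hzy⟩
      have hyN := hN.trans s hs y hy
      exact (h z (hN.trans y hyN z hzy)).2 ⟨y, hyN, hy, hzy⟩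
  rwa [← this]

/-- the isolated points of the ladder `A_δ` -/
theorem ladder_mem (hN : IsZFC N) (h : LadM N κ E L T) (hX : SpM N κ E L X) {δ : ZFSet.{0}}
    (hδ : δ ∈ E) : ∃ A ∈ N, ∀ z, z ∈ A ↔ ∃ ξ, pair δ ξ ∈ L ∧ z = iso ξ := by
  have hδN : δ ∈ N := hN.trans E h.EN δ hδ
  obtain ⟨A, hA, h1⟩ := sep4 hN
    (R := fun x e k d l => ∃ ξ ∈ k, x = pair e ξ ∧ pair d ξ ∈ l)
    (.exB hN 2 (.and (.pair hN 1 2 0) (.pair_mem hN 4 0 5))) hX.xN (nat_mem hN 0) h.κN hδN h.LN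
  refine ⟨A, hA, fun z => ?_⟩
  rw [h1]
  constructor
  · rintro ⟨-, ξ, -, h2, h3⟩
    exact ⟨ξ, h3, h2⟩
  · rintro ⟨ξ, h3, rfl⟩
    have h4 : ξ ∈ κ := h.ord.mem_trans (h.L1 δ ξ h3).2 (h.Eκ hδ)
    exact ⟨(hX.mem_x _).2 (Or.inl ⟨ξ, h4, rfl⟩), ξ, h4, rfl, h3⟩

theorem ladder_inter (h : LadM N κ E L T) {δ δ' : ZFSet.{0}} (hδ : δ ∈ E) (hδ' : δ' ∈ E)
    (hne : δ ≠ δ') : {ξ | pair δ ξ ∈ L ∧ pair δ' ξ ∈ L}.Finite := by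
  have o1 := h.ord.mem (h.Eκ hδ)
  have o2 := h.ord.mem (h.Eκ hδ')
  rcases o1.mem_trichotomous o2 with h1 | h1 | h1
  · refine (h.L2 δ' hδ' δ h1).subset ?_
    rintro ξ ⟨h2, h3⟩
    exact ⟨h3, (h.L1 δ ξ h2).2⟩
  · exact absurd h1 hne
  · refine (h.L2 δ hδ δ' h1).subset ?_
    rintro ξ ⟨h2, h3⟩
    exact ⟨h2, (h.L1 δ' ξ h3).2⟩

/-- a point together with a set of isolated points -/
theorem nbhd (hN : IsZFC N) (h : LadM N κ E L T) (hX : SpM N κ E L X) {δ A : ZFSet.{0}}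
    (hδ : δ ∈ E) (hA : A ∈ N) (hA1 : ∀ z ∈ A, ∃ ξ, pair δ ξ ∈ L ∧ z = iso ξ)
    (hA2 : {ξ | pair δ ξ ∈ L ∧ iso ξ ∉ A}.Finite) :
    ∃ u ∈ X.o, ∀ z, z ∈ u ↔ z = lmt δ ∨ z ∈ A := by
  have hδN : δ ∈ N := hN.trans E h.EN δ hδ
  have hl : lmt δ ∈ N := (pair_mem_iff hN).2 ⟨nat_mem hN 1, hδN⟩
  obtain ⟨u, hu, h1⟩ := exists_union hN (singleton_mem hN hl) hA
  have h2 : ∀ z, z ∈ u ↔ z = lmt δ ∨ z ∈ A := by
    intro z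
    rw [h1, ZFSet.mem_singleton]
  refine ⟨u, (hX.mem_o u).2 ⟨hu, ?_, ?_, ?_⟩, h2⟩
  · intro z hz
    rw [hX.mem_x]
    rcases (h2 z).1 hz with rfl | hz
    · exact Or.inr (Or.inl ⟨δ, hδ, rfl⟩)
    · obtain ⟨ξ, h3, rfl⟩ := hA1 z hz
      exact Or.inl ⟨ξ, h.ord.mem_trans (h.L1 δ ξ h3).2 (h.Eκ hδ), rfl⟩
  · intro δ' _ hz
    rcases (h2 _).1 hz with h3 | h3
    · rw [lmt_inj h3]
      refine hA2.subset ?_
      rintro ξ ⟨h4, h5⟩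
      exact ⟨h4, fun h6 => h5 ((h2 _).2 (Or.inr h6))⟩
    · obtain ⟨ξ, -, h4⟩ := hA1 _ h3
      exact absurd h4.symm (iso_ne_lmt _ _)
  · intro hz
    rcases (h2 _).1 hz with h3 | h3
    · exact absurd h3.symm (lmt_ne_ifty _)
    · obtain ⟨ξ, -, h4⟩ := hA1 _ h3
      exact absurd h4.symm (iso_ne_ifty _)

theorem single_open (hN : IsZFC N) (hX : SpM N κ E L X) (h : LadM N κ E L T) {ξ : ZFSet.{0}}
    (hξ : ξ ∈ κ) : ({iso ξ} : ZFSet.{0}) ∈ X.o := by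
  have hi : iso ξ ∈ N := (pair_mem_iff hN).2 ⟨nat_mem hN 0, hN.trans κ h.κN ξ hξ⟩
  refine (hX.mem_o _).2 ⟨singleton_mem hN hi, ?_, ?_, ?_⟩
  · intro z hz
    rw [ZFSet.mem_singleton] at hz
    exact (hX.mem_x z).2 (Or.inl ⟨ξ, hξ, hz⟩)
  · intro δ _ hz
    rw [ZFSet.mem_singleton] at hz
    exact absurd hz.symm (iso_ne_lmt _ _)
  · intro hz
    rw [ZFSet.mem_singleton] at hz
    exact absurd hz.symm (iso_ne_ifty _)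

theorem iso_mem_x (h : LadM N κ E L T) (hX : SpM N κ E L X) {δ ξ : ZFSet.{0}}
    (h1 : pair δ ξ ∈ L) : iso ξ ∈ X.x :=
  (hX.mem_x _).2 (Or.inl ⟨ξ, h.ord.mem_trans (h.L1 δ ξ h1).2 (h.Eκ (h.L1 δ ξ h1).1), rfl⟩)

/-- isolated points can be separated from all other points -/
theorem haus_iso (hN : IsZFC N) (h : LadM N κ E L T) (hX : SpM N κ E L X) {ξ y : ZFSet.{0}}
    (hξ : ξ ∈ κ) (hy : y ∈ X.x) (hne : iso ξ ≠ y) :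
    ∃ u ∈ X.o, ∃ v ∈ X.o, iso ξ ∈ u ∧ y ∈ v ∧ ∀ z ∈ u, z ∉ v := by
  have hu := single_open hN hX h hξ
  have huN := ((hX.mem_o _).1 hu).1
  obtain ⟨v, hv, h1⟩ := diff_mem hN hX.xN huN
  refine ⟨_, hu, v, (hX.mem_o v).2 ⟨hv, fun z hz => ((h1 z).1 hz).1, ?_, ?_⟩,
    ZFSet.mem_singleton.2 rfl, (h1 y).2 ⟨hy, fun h2 => hne (ZFSet.mem_singleton.1 h2).symm⟩,
    fun z hz hz' => ((h1 z).1 hz').2 hz⟩
  · intro δ hδ _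
    refine (Set.finite_singleton ξ).subset ?_
    rintro ξ' ⟨h2, h3⟩
    by_contra hcon
    refine h3 ((h1 _).2 ⟨iso_mem_x h hX h2, fun h4 => hcon ?_⟩)
    exact iso_inj (ZFSet.mem_singleton.1 h4)
  · intro _
    refine ⟨∅, Set.finite_empty, fun δ hδ hl => ?_, (Set.finite_singleton ξ).subset ?_⟩
    · refine absurd ((h1 _).2 ⟨(hX.mem_x _).2 (Or.inr (Or.inl ⟨δ, hδ, rfl⟩)), fun h4 => ?_⟩) hl
      exact iso_ne_lmt _ _ (ZFSet.mem_singleton.1 h4).symm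
    · rintro ξ' ⟨h2, h3, -⟩
      by_contra hcon
      refine h3 ((h1 _).2 ⟨(hX.mem_x _).2 (Or.inl ⟨ξ', h2, rfl⟩), fun h4 => hcon ?_⟩)
      exact iso_inj (ZFSet.mem_singleton.1 h4)

/-- two ladder points -/
theorem haus_lmt (hN : IsZFC N) (h : LadM N κ E L T) (hX : SpM N κ E L X) {δ δ' : ZFSet.{0}}
    (hδ : δ ∈ E) (hδ' : δ' ∈ E) (hne : δ ≠ δ') :
    ∃ u ∈ X.o, ∃ v ∈ X.o, lmt δ ∈ u ∧ lmt δ' ∈ v ∧ ∀ z ∈ u, z ∉ v := by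
  obtain ⟨A, hA, hA1⟩ := ladder_mem hN h hX hδ
  obtain ⟨A', hA', hA1'⟩ := ladder_mem hN h hX hδ'
  obtain ⟨B, hB, hB1⟩ := diff_mem hN hA hA'
  obtain ⟨u, hu, hu1⟩ := nbhd hN h hX hδ hB (fun z hz => (hA1 z).1 ((hB1 z).1 hz).1) (by
    refine (ladder_inter h hδ hδ' hne).subset ?_
    rintro ξ ⟨h1, h2⟩
    refine ⟨h1, ?_⟩
    by_contra h3
    refine h2 ((hB1 _).2 ⟨(hA1 _).2 ⟨ξ, h1, rfl⟩, fun h4 => h3 ?_⟩)
    obtain ⟨ξ', h5, h6⟩ := (hA1' _).1 h4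
    rwa [iso_inj h6])
  obtain ⟨v, hv, hv1⟩ := nbhd hN h hX hδ' hA' (fun z hz => (hA1' z).1 hz) (by
    refine Set.finite_empty.subset ?_
    rintro ξ ⟨h1, h2⟩
    exact h2 ((hA1' _).2 ⟨ξ, h1, rfl⟩))
  refine ⟨u, hu, v, hv, (hu1 _).2 (Or.inl rfl), (hv1 _).2 (Or.inl rfl), fun z hz hz' => ?_⟩
  rcases (hu1 z).1 hz with rfl | hz
  · rcases (hv1 _).1 hz' with h1 | h1
    · exact hne (lmt_inj h1)
    · obtain ⟨ξ, -, h2⟩ := (hA1' _).1 h1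
      exact iso_ne_lmt _ _ h2.symm
  · obtain ⟨h1, h2⟩ := (hB1 z).1 hz
    rcases (hv1 z).1 hz' with h3 | h3
    · obtain ⟨ξ, -, h4⟩ := (hA1 _).1 h1
      rw [h4] at h3
      exact iso_ne_lmt _ _ h3
    · exact h2 h3

/-- a ladder point and the point at infinity -/
theorem haus_ifty (hN : IsZFC N) (h : LadM N κ E L T) (hX : SpM N κ E L X) {δ : ZFSet.{0}}
    (hδ : δ ∈ E) : ∃ u ∈ X.o, ∃ v ∈ X.o, lmt δ ∈ u ∧ ifty ∈ v ∧ ∀ z ∈ u, z ∉ v := by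
  obtain ⟨A, hA, hA1⟩ := ladder_mem hN h hX hδ
  obtain ⟨u, hu, hu1⟩ := nbhd hN h hX hδ hA (fun z hz => (hA1 z).1 hz) (by
    refine Set.finite_empty.subset ?_
    rintro ξ ⟨h1, h2⟩
    exact h2 ((hA1 _).2 ⟨ξ, h1, rfl⟩))
  have huN := ((hX.mem_o u).1 hu).1
  obtain ⟨v, hv, hv1⟩ := diff_mem hN hX.xN huN
  refine ⟨u, hu, v, (hX.mem_o v).2 ⟨hv, fun z hz => ((hv1 z).1 hz).1, ?_, ?_⟩,
    (hu1 _).2 (Or.inl rfl), (hv1 _).2 ⟨(hX.mem_x _).2 (Or.inr (Or.inr rfl)), fun h1 => ?_⟩,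
    fun z hz hz' => ((hv1 z).1 hz').2 hz⟩
  · intro δ' hδ' hl
    have hne : δ ≠ δ' := by
      rintro rfl
      exact ((hv1 _).1 hl).2 ((hu1 _).2 (Or.inl rfl))
    refine (ladder_inter h hδ hδ' hne).subset ?_
    rintro ξ ⟨h1, h2⟩
    refine ⟨?_, h1⟩
    by_contra h3
    refine h2 ((hv1 _).2 ⟨iso_mem_x h hX h1, fun h4 => ?_⟩)
    rcases (hu1 _).1 h4 with h5 | h5
    · exact iso_ne_lmt _ _ h5
    · obtain ⟨ξ', h6, h7⟩ := (hA1 _).1 h5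
      rw [← iso_inj h7] at h6
      exact h3 h6
  · intro _
    refine ⟨{δ}, Set.finite_singleton δ, fun δ' hδ' hl => ?_, Set.finite_empty.subset ?_⟩
    · by_contra hcon
      refine hl ((hv1 _).2 ⟨(hX.mem_x _).2 (Or.inr (Or.inl ⟨δ', hδ', rfl⟩)), fun h4 => ?_⟩)
      rcases (hu1 _).1 h4 with h5 | h5
      · exact hcon (lmt_inj h5)
      · obtain ⟨ξ, -, h6⟩ := (hA1 _).1 h5
        exact iso_ne_lmt _ _ h6.symm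
    · rintro ξ ⟨h1, h2, h3⟩
      refine h2 ((hv1 _).2 ⟨(hX.mem_x _).2 (Or.inl ⟨ξ, h1, rfl⟩), fun h4 => ?_⟩)
      rcases (hu1 _).1 h4 with h5 | h5
      · exact iso_ne_lmt _ _ h5
      · obtain ⟨ξ', h6, h7⟩ := (hA1 _).1 h5
        rw [← iso_inj h7] at h6
        exact h3 δ rfl h6
  · rcases (hu1 _).1 h1 with h5 | h5
    · exact lmt_ne_ifty _ h5.symm
    · obtain ⟨ξ, -, h6⟩ := (hA1 _).1 h5
      exact iso_ne_ifty _ h6.symm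

end In1

open In1

theorem isComp {N : Set ZFSet.{0}} {κ E L T : ZFSet.{0}} {X : Sp} (hN : IsZFC N)
    (h : LadM N κ E L T) (hX : SpM N κ E L X) : IsComp N X where
  x_mem := hX.xN
  o_mem := hX.oN
  sub u hu := ((hX.mem_o u).1 hu).2.1
  top := by
    refine (hX.mem_o _).2 ⟨hX.xN, fun z hz => hz, fun δ hδ _ => ?_, fun _ => ?_⟩
    · refine Set.finite_empty.subset ?_
      rintro ξ ⟨h1, h2⟩
      exact h2 (iso_mem_x h hX h1)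
    · refine ⟨∅, Set.finite_empty, fun δ hδ hl => ?_, Set.finite_empty.subset ?_⟩
      · exact absurd ((hX.mem_x _).2 (Or.inr (Or.inl ⟨δ, hδ, rfl⟩))) hl
      · rintro ξ ⟨h1, h2, -⟩
        exact h2 ((hX.mem_x _).2 (Or.inl ⟨ξ, h1, rfl⟩))
  inter u hu v hv := by
    obtain ⟨u1, u2, u3, u4⟩ := (hX.mem_o u).1 hu
    obtain ⟨v1, v2, v3, v4⟩ := (hX.mem_o v).1 hv
    refine (hX.mem_o _).2 ⟨inter_mem hN u1 v1, fun z hz => u2 (ZFSet.mem_inter.1 hz).1,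
      fun δ hδ hl => ?_, fun hi => ?_⟩
    · obtain ⟨l1, l2⟩ := ZFSet.mem_inter.1 hl
      refine ((u3 δ hδ l1).union (v3 δ hδ l2)).subset ?_
      rintro ξ ⟨h1, h2⟩
      by_cases h3 : iso ξ ∈ u
      · exact Or.inr ⟨h1, fun h4 => h2 (ZFSet.mem_inter.2 ⟨h3, h4⟩)⟩
      · exact Or.inl ⟨h1, h3⟩
    · obtain ⟨l1, l2⟩ := ZFSet.mem_inter.1 hi
      obtain ⟨D, hD, hD1, hD2⟩ := u4 l1
      obtain ⟨D', hD', hD1', hD2'⟩ := v4 l2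
      refine ⟨D ∪ D', hD.union hD', fun δ hδ hl => ?_, (hD2.union hD2').subset ?_⟩
      · by_cases h3 : lmt δ ∈ u
        · exact Or.inr (hD1' δ hδ fun h4 => hl (ZFSet.mem_inter.2 ⟨h3, h4⟩))
        · exact Or.inl (hD1 δ hδ h3)
      · rintro ξ ⟨h1, h2, h3⟩
        by_cases h4 : iso ξ ∈ u
        · exact Or.inr ⟨h1, fun h5 => h2 (ZFSet.mem_inter.2 ⟨h4, h5⟩),
            fun δ hδ => h3 δ (Or.inr hδ)⟩
        · exact Or.inl ⟨h1, h4, fun δ hδ => h3 δ (Or.inl hδ)⟩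
  union s hs hso := by
    refine (hX.mem_o _).2 ⟨sUnion_mem hN hs, fun z hz => ?_, fun δ hδ hl => ?_, fun hi => ?_⟩
    · obtain ⟨u, hu, hzu⟩ := ZFSet.mem_sUnion.1 hz
      exact ((hX.mem_o u).1 (hso hu)).2.1 hzu
    · obtain ⟨u, hu, hzu⟩ := ZFSet.mem_sUnion.1 hl
      refine (((hX.mem_o u).1 (hso hu)).2.2.1 δ hδ hzu).subset ?_
      rintro ξ ⟨h1, h2⟩
      exact ⟨h1, fun h3 => h2 (ZFSet.mem_sUnion.2 ⟨u, hu, h3⟩)⟩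
    · obtain ⟨u, hu, hzu⟩ := ZFSet.mem_sUnion.1 hi
      obtain ⟨D, hD, hD1, hD2⟩ := ((hX.mem_o u).1 (hso hu)).2.2.2 hzu
      refine ⟨D, hD, fun δ hδ hl => hD1 δ hδ fun h3 => hl (ZFSet.mem_sUnion.2 ⟨u, hu, h3⟩),
        hD2.subset ?_⟩
      rintro ξ ⟨h1, h2, h3⟩
      exact ⟨h1, fun h4 => h2 (ZFSet.mem_sUnion.2 ⟨u, hu, h4⟩), h3⟩
  haus x hx y hy hne := by
    have symm : ∀ {x y : ZFSet.{0}}, (∃ u ∈ X.o, ∃ v ∈ X.o, x ∈ u ∧ y ∈ v ∧ ∀ z ∈ u, z ∉ v) →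
        ∃ u ∈ X.o, ∃ v ∈ X.o, y ∈ u ∧ x ∈ v ∧ ∀ z ∈ u, z ∉ v := by
      rintro x y ⟨u, hu, v, hv, h1, h2, h3⟩
      exact ⟨v, hv, u, hu, h2, h1, fun z hz hz' => h3 z hz' hz⟩
    rcases (hX.mem_x x).1 hx with ⟨ξ, hξ, rfl⟩ | ⟨δ, hδ, rfl⟩ | rfl
    · exact haus_iso hN h hX hξ hy hne
    · rcases (hX.mem_x y).1 hy with ⟨ξ, hξ, rfl⟩ | ⟨δ', hδ', rfl⟩ | rfl
      · exact symm (haus_iso hN h hX hξ hx hne.symm)
      · exact haus_lmt hN h hX hδ hδ' fun e => hne (by rw [e])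
      · exact haus_ifty hN h hX hδ
    · rcases (hX.mem_x y).1 hy with ⟨ξ, hξ, rfl⟩ | ⟨δ', hδ', rfl⟩ | rfl
      · exact symm (haus_iso hN h hX hξ hx hne.symm)
      · exact symm (haus_ifty hN h hX hδ')
      · exact absurd rfl hne
  comp s hs hso hcov := by
    classical
    choose! c hc1 hc2 using hcov
    have hix : ifty ∈ X.x := (hX.mem_x _).2 (Or.inr (Or.inr rfl))
    obtain ⟨D, hD, hD1, hD2⟩ := ((hX.mem_o _).1 (hso (hc1 _ hix))).2.2.2 (hc2 _ hix)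
    have hfin : ∀ δ ∈ D ∩ {δ | δ ∈ E}, {ξ | pair δ ξ ∈ L ∧ iso ξ ∉ c (lmt δ)}.Finite := by
      rintro δ ⟨-, hδ⟩
      have hlx : lmt δ ∈ X.x := (hX.mem_x _).2 (Or.inr (Or.inl ⟨δ, hδ, rfl⟩))
      exact ((hX.mem_o _).1 (hso (hc1 _ hlx))).2.2.1 δ hδ (hc2 _ hlx)
    have hDE : (D ∩ {δ | δ ∈ E}).Finite := hD.subset Set.inter_subset_left
    refine ⟨{c ifty} ∪ ((fun δ => c (lmt δ)) '' (D ∩ {δ | δ ∈ E}) ∪ (fun ξ => c (iso ξ)) ''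
      ({ξ | ξ ∈ κ ∧ iso ξ ∉ c ifty ∧ ∀ δ ∈ D, pair δ ξ ∉ L} ∪
        ⋃ δ ∈ D ∩ {δ | δ ∈ E}, {ξ | pair δ ξ ∈ L ∧ iso ξ ∉ c (lmt δ)})), ?_, ?_, ?_⟩
    · exact (Set.finite_singleton _).union ((hDE.image _).union
        ((hD2.union (hDE.biUnion hfin)).image _))
    · rintro u (hu | ⟨δ, ⟨-, hδ⟩, rfl⟩ | ⟨ξ, hξ, rfl⟩)
      · rw [Set.mem_singleton_iff.1 hu]
        exact hc1 _ hix
      · exact hc1 _ ((hX.mem_x _).2 (Or.inr (Or.inl ⟨δ, hδ, rfl⟩)))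
      · rcases hξ with ⟨h1, -⟩ | h1
        · exact hc1 _ ((hX.mem_x _).2 (Or.inl ⟨ξ, h1, rfl⟩))
        · obtain ⟨δ, hδ, h2⟩ := Set.mem_iUnion₂.1 h1
          exact hc1 _ (iso_mem_x h hX h2.1)
    · intro x hx
      rcases (hX.mem_x x).1 hx with ⟨ξ, hξ, rfl⟩ | ⟨δ, hδ, rfl⟩ | rfl
      · by_cases h1 : iso ξ ∈ c ifty
        · exact ⟨_, Or.inl rfl, h1⟩
        by_cases h2 : ∀ δ ∈ D, pair δ ξ ∉ L
        · exact ⟨_, Or.inr (Or.inr ⟨ξ, Or.inl ⟨hξ, h1, h2⟩, rfl⟩), hc2 _ hx⟩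
        · push Not at h2
          obtain ⟨δ, hδ, h3⟩ := h2
          have hδE := (h.L1 δ ξ h3).1
          by_cases h4 : iso ξ ∈ c (lmt δ)
          · exact ⟨_, Or.inr (Or.inl ⟨δ, ⟨hδ, hδE⟩, rfl⟩), h4⟩
          · exact ⟨_, Or.inr (Or.inr ⟨ξ, Or.inr (Set.mem_iUnion₂.2 ⟨δ, ⟨hδ, hδE⟩, h3, h4⟩), rfl⟩),
              hc2 _ hx⟩
      · by_cases h1 : lmt δ ∈ c ifty
        · exact ⟨_, Or.inl rfl, h1⟩
        · exact ⟨_, Or.inr (Or.inl ⟨δ, ⟨hD1 δ hδ h1, hδ⟩, rfl⟩), hc2 _ hx⟩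
      · exact ⟨_, Or.inl rfl, hc2 _ hx⟩

end Pool.Agent.Helper23.EB
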